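import Pool.Agent.MP_28f8a1_an.Wk.Main

/-! The set of parameters of the Multibrot set at which a ray portrait of period `n` and rotation
`p / q` is realised has diameter at most `K n / q`, and `o (n / q)` when `K n ≤ q`. -/

set_option autoImplicit false

namespace Pool.Agent.Results.MP_28f8a1_an.LimbSize

open Pool.Agent.MP_28f8a1_an.Mlc

theorem result :
    ∀ d : ℕ, 2 ≤ d → ∃ (K : ℝ) (η : ℕ → ℝ), Filter.Tendsto η Filter.atTop (nhds 0) ∧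
      ∀ (n p q : ℕ) (θ : ℕ → ℝ), 0 < n → 0 < p → p < q →
      (∀ j < q, 0 ≤ θ j ∧ θ j < 1) → (∀ i j, i < j → j < q → θ i < θ j) →
      (∀ j < q, ∃ m : ℤ, (d : ℝ) ^ n * θ j = θ ((j + p) % q) + m) →
      ∃ X : Set ℂ, IsConnected X ∧
        (∀ a ∈ X, ∃ B : ℝ, ∀ k : ℕ, ‖(fun w : ℂ => w ^ d + a)^[k] 0‖ ≤ B) ∧
        (∀ a ∈ X, ∀ b ∈ X, ‖a - b‖ ≤ K * n / q ∧ (K * n ≤ q → ‖a - b‖ ≤ η n * n / q)) ∧
        (∃ a ∈ X, ∃ (m : ℕ) (u : ℂ), 0 < m ∧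
          Function.minimalPeriod (fun w : ℂ => w ^ d + a) u = m ∧
          ‖deriv (fun w : ℂ => w ^ d + a)^[m] u‖ < 1 ∧
          Filter.Tendsto (fun k : ℕ => (fun w : ℂ => w ^ d + a)^[m * k] 0) Filter.atTop
            (nhds u)) ∧
        ∀ (c : ℂ) (ψ : ℂ → ℂ) (z : ℂ),
          DifferentiableOn ℂ ψ {w | 1 < ‖w‖} → Set.InjOn ψ {w | 1 < ‖w‖} →
          (∀ w : ℂ, 1 < ‖w‖ → ψ (w ^ d) = ψ w ^ d + c) →
          Filter.Tendsto (fun w => ψ w / w) (Bornology.cobounded ℂ) (nhds 1) →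
          Function.minimalPeriod (fun w : ℂ => w ^ d + c) z = n →
          1 < ‖deriv (fun w : ℂ => w ^ d + c)^[n] z‖ →
          (∀ j < q, Filter.Tendsto
            (fun r : ℝ => ψ (r * Complex.exp (2 * Real.pi * Complex.I * θ j)))
            (nhdsWithin 1 (Set.Ioi 1)) (nhds z)) →
          c ∈ X ∧ ∃ δ : ℝ, 0 < δ ∧ ∀ a : ℂ,
            (∃ B : ℝ, ∀ k : ℕ, ‖(fun w : ℂ => w ^ d + a)^[k] 0‖ ≤ B) → ‖a - c‖ < δ → a ∈ X := by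
  intro d hd
  obtain ⟨e, rfl⟩ : ∃ e, d = e + 1 := ⟨d - 1, by omega⟩
  obtain ⟨K, η, hη, H⟩ := whole_limb (e := e) (by omega)
  refine ⟨K, η, hη, fun n p q θ hn hp hpq hθ mono rot => ?_⟩
  obtain ⟨X, x1, x2, x3, x4, x5⟩ := H n p q θ ⟨hn, hp, hpq, hθ, mono, rot⟩
  refine ⟨X, x1, x2, x3, x4, fun c ψ z h1 h2 h3 h4 h5 h6 h7 => ?_⟩
  have h := x5 (c, z) ⟨h5, h6, ψ, ⟨h1, h2, h3, h4⟩, h7⟩
  obtain ⟨δ, hδ, h'⟩ := Metric.mem_nhdsWithin_iff.1 h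
  exact ⟨mem_of_mem_nhdsWithin (Bot.mem (by omega) ⟨h1, h2, h3, h4⟩) h, δ, hδ,
    fun a ha h'' => h' ⟨mem_ball_iff_norm.2 h'', ha⟩⟩

end Pool.Agent.Results.MP_28f8a1_an.LimbSize
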