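import Pool.Agent.MP_28f8a1_an.Mg.G42_Main

/-! A non-attracting cycle whose multiplier is close to the unit circle becomes attracting after a
small perturbation which keeps the number of critical points and captures one more of them,
uniformly in the period. -/

set_option autoImplicit false

namespace Pool.Agent.Results.MP_28f8a1_an.MultiplierGap

theorem result :
    ∀ T : Polynomial ℂ, 2 ≤ T.natDegree → ∀ ε : ℝ, 0 < ε → ∃ δ : ℝ, 0 < δ ∧
      ∀ (z : ℂ) (n : ℕ), 0 < n → Function.minimalPeriod (fun w : ℂ => T.eval w) z = n →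
      1 ≤ ‖deriv ((fun w : ℂ => T.eval w)^[n]) z‖ →
      ‖deriv ((fun w : ℂ => T.eval w)^[n]) z‖ ≤ 1 + δ →
      ∃ (S : Polynomial ℂ) (z' : ℂ), S.natDegree = T.natDegree ∧
        (∀ i : ℕ, ‖S.coeff i - T.coeff i‖ < ε) ∧
        {c : ℂ | S.derivative.eval c = 0}.ncard = {c : ℂ | T.derivative.eval c = 0}.ncard ∧
        {c : ℂ | T.derivative.eval c = 0 ∧
          (Filter.Tendsto (fun k : ℕ => ‖(fun w : ℂ => T.eval w)^[k] c‖)
              Filter.atTop Filter.atTop ∨
            ∃ m : ℕ, 0 < m ∧ ∃ u : ℂ, (fun w : ℂ => T.eval w)^[m] u = u ∧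
              ‖deriv ((fun w : ℂ => T.eval w)^[m]) u‖ < 1 ∧
              Filter.Tendsto (fun k : ℕ => (fun w : ℂ => T.eval w)^[m * k] c)
                Filter.atTop (nhds u))}.ncard <
        {c : ℂ | S.derivative.eval c = 0 ∧
          (Filter.Tendsto (fun k : ℕ => ‖(fun w : ℂ => S.eval w)^[k] c‖)
              Filter.atTop Filter.atTop ∨
            ∃ m : ℕ, 0 < m ∧ ∃ u : ℂ, (fun w : ℂ => S.eval w)^[m] u = u ∧
              ‖deriv ((fun w : ℂ => S.eval w)^[m]) u‖ < 1 ∧
              Filter.Tendsto (fun k : ℕ => (fun w : ℂ => S.eval w)^[m * k] c)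
                Filter.atTop (nhds u))}.ncard ∧
        Function.minimalPeriod (fun w : ℂ => S.eval w) z' = n ∧
        ‖deriv ((fun w : ℂ => S.eval w)^[n]) z'‖ < 1 :=
  fun _ hT _ hε => Pool.Agent.MP_28f8a1_an.G42.gap hT hε

end Pool.Agent.Results.MP_28f8a1_an.MultiplierGap
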