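import Pool.Agent.MP_28f8a1_an.W37.Main

/-! Density of captured critical orbits, all degrees; mixed characteristic (0, 2) is
excluded. -/

namespace Pool.Agent.Results.MP_28f8a1_an.NonArchAllDegrees

theorem result (F K : Type*) [Field F] [NontriviallyNormedField K] [IsUltrametricDist K]
    [IsAlgClosed K] [Algebra F K]
    (hF : ∃ g : ℝ, 1 < g ∧ ∀ x : F, x ≠ 0 → ∃ m : ℤ, ‖algebraMap F K x‖ = g ^ m)
    (hdense : Dense {x : K | IsAlgebraic F x}) (h2 : ‖(2 : K)‖ = 1 ∨ (2 : K) = 0)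
    (T : Polynomial K) (hd : 2 ≤ T.natDegree) (ε : ℝ) (hε : 0 < ε) :
    ∃ S : Polynomial K, ∃ δ : ℝ, 0 < δ ∧ S.natDegree = T.natDegree ∧
      (∀ k : ℕ, ‖S.coeff k - T.coeff k‖ < ε) ∧
      ∀ U : Polynomial K, U.natDegree = T.natDegree → (∀ k : ℕ, ‖U.coeff k - S.coeff k‖ < δ) →
        ∀ c : K, (Polynomial.derivative U).eval c = 0 →
          (Filter.Tendsto (fun n : ℕ => ‖(fun z => U.eval z)^[n] c‖) Filter.atTop Filter.atTop ∨
            ∃ (b : K) (r : ℝ) (m i : ℕ), 0 < r ∧ 1 ≤ m ∧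
              Set.MapsTo (fun z => U.eval z)^[m] (Metric.closedBall b r) (Metric.closedBall b r) ∧
              (fun z => U.eval z)^[i] c ∈ Metric.closedBall b r) :=
  Pool.Agent.MP_28f8a1_an.W37.main F hF hdense h2 T hd ε hε

end Pool.Agent.Results.MP_28f8a1_an.NonArchAllDegrees
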