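import Pool.Agent.MP_28f8a1_an.Mlc.Ext

/-! The inverse multiplier maps of all hyperbolic components of the Multibrot set extend to one
larger disc, with derivatives tending to zero with the period. -/

set_option autoImplicit false

namespace Pool.Agent.Results.MP_28f8a1_an.UniformExtension

open Pool.Agent.MP_28f8a1_an.Mlc

theorem result :
    ∀ d : ℕ, 2 ≤ d → ∃ (δ : ℝ) (η : ℕ → ℝ), 0 < δ ∧ Filter.Tendsto η Filter.atTop (nhds 0) ∧
      ∀ (c z : ℂ) (n : ℕ), 0 < n → Function.minimalPeriod (fun w : ℂ => w ^ d + c) z = n →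
      ‖deriv (fun w : ℂ => w ^ d + c)^[n] z‖ < 1 + δ → deriv (fun w : ℂ => w ^ d + c)^[n] z ≠ 1 →
      ∃ (C : ℂ → ℂ) (t₀ : ℂ), DifferentiableOn ℂ C (Metric.ball 0 (1 + δ)) ∧ ‖t₀‖ < 1 + δ ∧
        t₀ ^ (d - 1) = deriv (fun w : ℂ => w ^ d + c)^[n] z ∧ C t₀ = c ∧
        ∀ t : ℂ, ‖t‖ < 1 + δ → ‖deriv C t‖ ≤ η n ∧ (t ^ (d - 1) ≠ 1 → ∃ u : ℂ,
          Function.minimalPeriod (fun w : ℂ => w ^ d + C t) u = n ∧
          deriv (fun w : ℂ => w ^ d + C t)^[n] u = t ^ (d - 1) ∧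
          (‖t‖ < 1 → Filter.Tendsto (fun k : ℕ => (fun w : ℂ => w ^ d + C t)^[n * k] 0)
            Filter.atTop (nhds u))) := by
  intro d hd
  obtain ⟨e, rfl⟩ : ∃ e, d = e + 1 := ⟨d - 1, by omega⟩
  obtain ⟨δ, η, h1, h2, H⟩ := extension (e := e) (by omega)
  exact ⟨δ, η, h1, h2, fun c z n hn hper h3 h4 => H n hn (c, z) hper h3 h4⟩

end Pool.Agent.Results.MP_28f8a1_an.UniformExtension
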